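import Pool.Agent.H72.EQQ.Targets

/-!
The local density of bad vectors (board eqq, row DEN).
-/

set_option autoImplicit false

open Pool.Agent.H71.EQ Pool.Agent.H72.EQQ

namespace Pool.Agent.H35.EQQ

theorem bern (u : ℝ) (h0 : 0 ≤ u) (h1 : u ≤ 1 / 2) (m : ℕ) :
    1 - ((m : ℝ) + 2) * u + ((m : ℝ) + 1) * u ^ 2 ≤ (1 - u) ^ (m + 2) := by
  induction m with
  | zero => norm_num; nlinarith
  | succ m ih =>
    have hm : (0 : ℝ) ≤ m := Nat.cast_nonneg m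
    have h2 : 0 ≤ 1 - u := by linarith
    have h3 := mul_le_mul_of_nonneg_left ih h2
    have h4 : (1 - u) ^ (m + 1 + 2) = (1 - u) * (1 - u) ^ (m + 2) := by ring
    rw [h4]
    refine le_trans ?_ h3
    push_cast
    have h5 : 0 ≤ u ^ 2 * (1 / 2 - u) := by
      have : 0 ≤ 1 / 2 - u := by linarith
      positivity
    have h6 : 0 ≤ (m : ℝ) * (u ^ 2 * (1 / 2 - u)) := mul_nonneg hm h5
    nlinarith [sq_nonneg u, mul_nonneg hm (sq_nonneg u)]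

theorem wloc_zero (m p : ℕ) (hp : 2 ≤ p) (u : ℝ) (hu : u = 1 / (p : ℝ)) :
    wloc (m + 3) p 0 = (1 - u) ^ (m + 3) * (1 + ((m : ℝ) + 3) * u) +
      (-1) ^ m * ((1 - u) * u ^ (m + 2) * (((m : ℝ) + 3) * (1 - u) - 1)) := by
  have hP0 : (p : ℝ) ≠ 0 := by
    have : (2 : ℝ) ≤ p := by exact_mod_cast hp
    linarith
  have hu0 : u ≠ 0 := by rw [hu]; positivity
  have hP : (p : ℝ) = u⁻¹ := by rw [hu]; field_simp
  unfold wloc cnt
  rw [if_pos rfl, hP]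
  have e1 : u⁻¹ - 1 = (1 - u) * u⁻¹ := by field_simp
  have e2 : m + 3 - 1 = m + 2 := rfl
  rw [e1, e2, mul_pow, mul_pow, inv_pow, inv_pow]
  have e3 : (-1 : ℝ) ^ (m + 3) = -(-1) ^ m := by rw [pow_add]; norm_num
  have e4 : (-1 : ℝ) ^ (m + 2) = (-1) ^ m := by rw [pow_add]; norm_num
  rw [e3, e4]
  push_cast
  have e5 : u ^ (m + 3) = u ^ m * u ^ 3 := by ring
  have e6 : u ^ (m + 2) = u ^ m * u ^ 2 := by ring
  have e7 : (1 - u) ^ (m + 3) = (1 - u) ^ m * (1 - u) ^ 3 := by ring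
  have e8 : (1 - u) ^ (m + 2) = (1 - u) ^ m * (1 - u) ^ 2 := by ring
  rw [e5, e6, e7, e8]
  have hum : u ^ m ≠ 0 := pow_ne_zero _ hu0
  generalize (1 - u) ^ m = A
  generalize u ^ m = B at hum ⊢
  generalize (-1 : ℝ) ^ m = S
  field_simp
  ring

theorem cnt_le (m p : ℕ) (hp : 2 ≤ p) : cnt (m + 2) p ≤ (p : ℝ) ^ (m + 1) := by
  have hP : (2 : ℝ) ≤ p := by exact_mod_cast hp
  have hP0 : (0 : ℝ) < p := by linarith
  unfold cnt
  rw [div_le_iff₀ hP0]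
  have h1 : (-1 : ℝ) ^ (m + 2) ≤ 1 := by
    rcases neg_one_pow_eq_or ℝ (m + 2) with h | h <;> rw [h] <;> norm_num
  have h2 : (-1 : ℝ) ^ (m + 2) * ((p : ℝ) - 1) ≤ 1 * ((p : ℝ) - 1) :=
    mul_le_mul_of_nonneg_right h1 (by linarith)
  have h3 : ((p : ℝ) - 1) ^ (m + 1) ≤ (p : ℝ) ^ (m + 1) :=
    pow_le_pow_left₀ (by linarith) (by linarith) _
  have h4 : ((p : ℝ) - 1) ^ (m + 2) = ((p : ℝ) - 1) ^ (m + 1) * ((p : ℝ) - 1) := by ring
  have h5 : (p : ℝ) ≤ (p : ℝ) ^ (m + 1) := by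
    calc (p : ℝ) = (p : ℝ) ^ 1 := (pow_one _).symm
      _ ≤ (p : ℝ) ^ (m + 1) := pow_le_pow_right₀ (by linarith) (by omega)
  rw [h4]
  have h6 := mul_le_mul_of_nonneg_right h3 (show (0 : ℝ) ≤ (p : ℝ) - 1 by linarith)
  nlinarith

theorem pf_DEN (h3 : T_PRD) : T_DEN := by
  intro k p hk hp
  obtain ⟨-, -, -, -, hw⟩ := h3 k 1 hk le_rfl
  have hp2 : 2 ≤ p := hp.two_le
  have hP : (2 : ℝ) ≤ p := by exact_mod_cast hp2
  have hP0 : (0 : ℝ) < p := by linarith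
  obtain ⟨m, rfl⟩ : ∃ m, k = m + 2 := ⟨k - 2, by omega⟩
  refine ⟨⟨by linarith [(hw p 0 hp).2.1], ?_⟩, fun j hj => ⟨(hw p j hp).1, ?_⟩⟩
  · obtain ⟨u, hu⟩ : ∃ u : ℝ, u = 1 / (p : ℝ) := ⟨_, rfl⟩
    have hu0 : 0 ≤ u := by rw [hu]; positivity
    have hu1 : u ≤ 1 / 2 := by
      rw [hu]
      exact one_div_le_one_div_of_le (by norm_num) hP
    have hm : (0 : ℝ) ≤ m := Nat.cast_nonneg m
    rw [show m + 2 + 1 = m + 3 from rfl, wloc_zero m p hp2 u hu]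
    have hR : (((m + 2 : ℕ) : ℝ) + 1) ^ 2 / (p : ℝ) ^ 2 = ((m : ℝ) + 3) ^ 2 * u ^ 2 := by
      rw [hu]
      push_cast
      field_simp
      ring
    rw [hR]
    have hb := bern u hu0 hu1 (m + 1)
    rw [show m + 1 + 2 = m + 3 from rfl] at hb
    push_cast at hb
    have hN : 0 ≤ 1 + ((m : ℝ) + 3) * u := by positivity
    have h4 := mul_le_mul_of_nonneg_right hb hN
    have h1u : 0 ≤ 1 - u := by linarith
    have h5 : 0 ≤ ((m : ℝ) + 3) * (1 - u) - 1 := by nlinarith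
    have hu2 : 0 ≤ u ^ 2 := sq_nonneg u
    have h9 : 0 ≤ ((m : ℝ) + 2) * u ^ 2 * (((m : ℝ) + 3) * u) := by positivity
    rcases Nat.even_or_odd m with he | ho
    · rw [he.neg_one_pow, one_mul]
      have h6 : 0 ≤ (1 - u) * u ^ (m + 2) * (((m : ℝ) + 3) * (1 - u) - 1) := by positivity
      nlinarith [mul_nonneg hm hu2]
    · rw [ho.neg_one_pow]
      have hm1 : 1 ≤ m := ho.pos
      have h7 : u ^ (m + 2) ≤ u ^ 3 := pow_le_pow_of_le_one hu0 (by linarith) (by omega)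
      have h8 : (1 - u) * u ^ (m + 2) * (((m : ℝ) + 3) * (1 - u) - 1) ≤
          u ^ 3 * ((m : ℝ) + 3) := by
        have a1 : (1 - u) * u ^ (m + 2) ≤ u ^ 3 := by
          calc (1 - u) * u ^ (m + 2) ≤ 1 * u ^ (m + 2) :=
                mul_le_mul_of_nonneg_right (by linarith) (by positivity)
            _ = u ^ (m + 2) := one_mul _
            _ ≤ u ^ 3 := h7
        have a2 : ((m : ℝ) + 3) * (1 - u) - 1 ≤ (m : ℝ) + 3 := by nlinarith
        exact mul_le_mul a1 a2 h5 (by positivity)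
      have h10 : u ^ 3 ≤ 1 / 2 * u ^ 2 := by nlinarith
      have h11 : u ^ 3 * ((m : ℝ) + 3) ≤ 1 / 2 * u ^ 2 * ((m : ℝ) + 3) :=
        mul_le_mul_of_nonneg_right h10 (by positivity)
      nlinarith [mul_nonneg hm hu2]
  · unfold wloc
    rw [if_neg (by omega)]
    have hc := cnt_le m p hp2
    have e1 : m + 2 + 1 - 1 = m + 2 := rfl
    rw [e1]
    have h1p : 1 - 1 / (p : ℝ) ≤ 1 := by
      have : 0 ≤ 1 / (p : ℝ) := by positivity
      linarith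
    have h1p0 : 0 ≤ 1 - 1 / (p : ℝ) := by
      have : 1 / (p : ℝ) ≤ 1 := by
        rw [div_le_one hP0]; linarith
      linarith
    have hN : (0 : ℝ) ≤ ((m + 2 + 1 : ℕ) : ℝ) := Nat.cast_nonneg _
    have a1 : ((m + 2 + 1 : ℕ) : ℝ) * cnt (m + 2) p * (1 - 1 / (p : ℝ)) ≤
        ((m + 2 + 1 : ℕ) : ℝ) * (p : ℝ) ^ (m + 1) := by
      calc ((m + 2 + 1 : ℕ) : ℝ) * cnt (m + 2) p * (1 - 1 / (p : ℝ))
          ≤ ((m + 2 + 1 : ℕ) : ℝ) * (p : ℝ) ^ (m + 1) * (1 - 1 / (p : ℝ)) := by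
            apply mul_le_mul_of_nonneg_right _ h1p0
            exact mul_le_mul_of_nonneg_left hc hN
        _ ≤ ((m + 2 + 1 : ℕ) : ℝ) * (p : ℝ) ^ (m + 1) * 1 := by
            apply mul_le_mul_of_nonneg_left h1p
            positivity
        _ = _ := mul_one _
    calc ((m + 2 + 1 : ℕ) : ℝ) * cnt (m + 2) p * (1 - 1 / (p : ℝ)) / (p : ℝ) ^ j /
          (p : ℝ) ^ (m + 2)
        ≤ ((m + 2 + 1 : ℕ) : ℝ) * (p : ℝ) ^ (m + 1) / (p : ℝ) ^ j / (p : ℝ) ^ (m + 2) := by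
          gcongr
      _ = (((m + 2 : ℕ) : ℝ) + 1) / (p : ℝ) ^ (j + 1) := by
          push_cast
          field_simp
          ring

end Pool.Agent.H35.EQQ
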